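import Pool.Agent.Q84.HW.Mean
import Pool.Agent.Q138.PS.YL

/-!
# The Ramanujan bound for coefficients of weight 3/2 near the numbers `c n ^ j α ^ n`

Let `f_i` be countably many cusp forms of weight `3/2` on `Γ₀(N_i)`, `4 ∣ N_i`, with characters (in Shimura's normalisation), `a_i(m)` their
coefficients, `0 < ε ≤ 1/2`, `l < 1`. Outside a set of real `α > 1` of Hausdorff dimension at most `(1 - 2 ε) / (1 - l)`, for all forms, all
algebraic `c > 0`, all integers `j`, all `D` and all large `n`, the bound `|a_i(m)| ≤ m ^ (1/4 + ε)` is true for ALL integers `m` within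
`D (c n ^ j α ^ n) ^ l` of `c n ^ j α ^ n`.

Method: the mean square of the coefficients (`Q84/HW`, helper84) and a covering argument for the map `α ↦ α ^ n`.
-/

set_option autoImplicit false

open scoped MatrixGroups

namespace Pool.Agent.Results.MP_af11aa_nt.BoundNearPowers

open Filter UpperHalfPlane CongruenceSubgroup
open Pool.Agent.Q138.PS (NearPow)

/-- `ε_d` for odd `d`: `1` if `d ≡ 1 mod 4`, `i` if `d ≡ 3 mod 4` -/
noncomputable def eps (d : ℤ) : ℂ := if d % 4 = 1 then 1 else Complex.I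

/-- Shimura's symbol `(c/d)`, `d` odd -/
def sym (c d : ℤ) : ℤ := if c < 0 ∧ d < 0 then -jacobiSym c d.natAbs else jacobiSym c d.natAbs

/-- the theta multiplier `j(γ, z) = ε_d⁻¹ (c/d) (c z + d) ^ (1/2)` -/
noncomputable def j (γ : SL(2, ℤ)) (z : ℍ) : ℂ :=
  (eps (γ 1 1))⁻¹ * (sym (γ 1 0) (γ 1 1) : ℂ) * ((γ 1 0 : ℂ) * z + (γ 1 1 : ℂ)) ^ (1 / 2 : ℂ)

/-- `f` is a cusp form of weight `3/2` on `Γ₀(N)` with character `χ`: holomorphic,
`f(γ z) = χ(d) j(γ, z) ^ 3 f(z)` for `γ` in `Γ₀(N)`, and `f(σ z) (c z + d) ^ (-3/2)` tends to `0` for `Im z → ∞`, for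
every `σ` in `SL₂(ℤ)` -/
structure IsCuspForm (N : ℕ) (χ : DirichletCharacter ℂ N) (f : ℍ → ℂ) : Prop where
  holo : MDifferentiable (modelWithCornersSelf ℂ ℂ) (modelWithCornersSelf ℂ ℂ) f
  slash : ∀ γ ∈ Gamma0 N, ∀ z : ℍ, f (γ • z) = χ ((γ 1 1 : ℤ) : ZMod N) * j γ z ^ 3 * f z
  zero : ∀ σ : SL(2, ℤ), IsZeroAtImInfty fun z : ℍ => f (σ • z) * ((σ 1 0 : ℂ) * z + (σ 1 1 : ℂ)) ^ (-(3 / 2) : ℂ)

/-- the coefficient `a_f(n)` of `e^(2 π i n z)` -/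
noncomputable def coeff (f : ℍ → ℂ) (n : ℕ) : ℂ := (qExpansion 1 f).coeff n

theorem conv {N : ℕ} {χ : DirichletCharacter ℂ N} {f : ℍ → ℂ} (hf : IsCuspForm N χ f) :
    Pool.Agent.Q84.HW.IsCuspForm N χ f := ⟨hf.holo, hf.slash, hf.zero⟩

/-- **Theorem.** -/
theorem result {ι : Type} [Countable ι] (N : ι → ℕ) (hN : ∀ i, 0 < N i ∧ 4 ∣ N i)
    (χ : (i : ι) → DirichletCharacter ℂ (N i)) (f : ι → ℍ → ℂ) (hf : ∀ i, IsCuspForm (N i) (χ i) (f i)) :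
    (∀ (i : ι) (z : ℍ), HasSum (fun n : ℕ => coeff (f i) n * Complex.exp (2 * Real.pi * Complex.I * n * z)) (f i z)) ∧
    ∀ ε l : ℝ, 0 < ε → ε ≤ 1 / 2 → l < 1 →
      ∃ Z : Set ℝ, dimH Z ≤ ENNReal.ofReal ((1 - 2 * ε) / (1 - l)) ∧ ∀ α : ℝ, 1 < α → α ∉ Z →
        ∀ (i : ι) (c : ℝ), 0 < c → IsAlgebraic ℚ c → ∀ (k : ℤ) (D : ℝ), ∀ᶠ n : ℕ in atTop,
          ∀ m : ℕ, NearPow α c k D l n m → ‖coeff (f i) m‖ ≤ (m : ℝ) ^ (1 / 4 + ε) := by
  refine ⟨fun i z => Pool.Agent.Q84.HW.hasSum_coeff (conv (hf i)) z, fun ε l hε hε1 hl => ?_⟩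
  obtain ⟨Z, hZ, hg⟩ := Pool.Agent.Q138.PS.pow_alg (ι := ι)
    (fun i => {m : ℕ | (m : ℝ) ^ (1 / 4 + ε) < ‖coeff (f i) m‖}) (1 - 2 * ε) l (by linarith) hl (fun i η hη => by
      have : NeZero (N i) := ⟨(hN i).1.ne'⟩
      obtain ⟨C, hC0, hC⟩ := Pool.Agent.Q84.HW.mean_square (conv (hf i))
      refine Pool.Agent.Q138.PS.ms_few (fun n => ‖coeff (f i) n‖) (1 / 4) ε C (by norm_num) hε hε1 (fun X hX => ?_) η hη
      have h1 := hC X hX
      rw [show (2 * (1 / 4) + 1 : ℝ) = 3 / 2 by norm_num]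
      exact h1)
  refine ⟨Z, hZ, fun α hα hαZ i c hc hca k D => ?_⟩
  filter_upwards [hg α hα hαZ i c hc hca k D] with n hn m hm
  exact not_lt.1 (hn m hm)

end Pool.Agent.Results.MP_af11aa_nt.BoundNearPowers
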