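import Pool.Agent.Q138.PS.TW
import Pool.Agent.Q84.HW.Mean

/-!
# The Ramanujan bound for the coefficients of weight 3/2 at the integers `⌊α P(n)⌋`

Let `f_i` (`i` in a countable set) be cusp forms of weight `3/2` on `Γ₀(N_i)`, `4 ∣ N_i`, with characters (in Shimura's
normalisation; for instance bases of all the spaces `S_{3/2}(24 p, χ)`), `a_i(n)` their coefficients, and `q ≥ 2`.

Outside a set of real numbers of Hausdorff dimension at most `q / (q + 1 / (q 2 ^ (q - 1)))` every `α > 0` has the following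
property, for each `i` and `ε > 0`. For ALL integral polynomials `P` of degree `q` with positive leading coefficient and
coefficients of size at most `M ^ η`, all but `M ^ (1 - ρ)` of the `n ≤ M` are such that `r = ⌊α P(n)⌋` satisfies
`|a_i(r)| ≤ r ^ (1/4 + ε)`, `M` large (uniformly in `P`), where `η`, `ρ > 0` depend on `α`, `i`, `ε`.
-/

set_option autoImplicit false

open scoped Classical MatrixGroups

namespace Pool.Agent.Results.MP_af11aa_nt.CoefficientsAlongRealMultiples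

open Finset Filter UpperHalfPlane CongruenceSubgroup Pool.Agent.Q138.PS

/-- `ε_d` for odd `d`: `1` if `d ≡ 1 mod 4`, `i` if `d ≡ 3 mod 4` -/
noncomputable def eps (d : ℤ) : ℂ := if d % 4 = 1 then 1 else Complex.I

/-- Shimura's symbol `(c/d)`, `d` odd -/
def sym (c d : ℤ) : ℤ := if c < 0 ∧ d < 0 then -jacobiSym c d.natAbs else jacobiSym c d.natAbs

/-- the theta multiplier `j(γ, z) = ε_d⁻¹ (c/d) (c z + d) ^ (1/2)` -/
noncomputable def j (γ : SL(2, ℤ)) (z : ℍ) : ℂ :=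
  (eps (γ 1 1))⁻¹ * (sym (γ 1 0) (γ 1 1) : ℂ) * ((γ 1 0 : ℂ) * z + (γ 1 1 : ℂ)) ^ (1 / 2 : ℂ)

/-- `f` is a cusp form of weight `3/2` on `Γ₀(N)` with character `χ`: holomorphic,
`f(γ z) = χ(d) j(γ, z) ^ 3 f(z)` for `γ` in `Γ₀(N)`, and `f(σ z) (c z + d) ^ (-3/2)` tends to `0` for `Im z → ∞`, for
every `σ` in `SL₂(ℤ)` -/
structure IsCuspForm (N : ℕ) (χ : DirichletCharacter ℂ N) (f : ℍ → ℂ) : Prop where
  holo : MDifferentiable (modelWithCornersSelf ℂ ℂ) (modelWithCornersSelf ℂ ℂ) f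
  slash : ∀ γ ∈ Gamma0 N, ∀ z : ℍ, f (γ • z) = χ ((γ 1 1 : ℤ) : ZMod N) * j γ z ^ 3 * f z
  zero : ∀ σ : SL(2, ℤ), IsZeroAtImInfty fun z : ℍ => f (σ • z) * ((σ 1 0 : ℂ) * z + (σ 1 1 : ℂ)) ^ (-(3 / 2) : ℂ)

/-- the coefficient `a_f(n)` of `e^(2 π i n z)` -/
noncomputable def coeff (f : ℍ → ℂ) (n : ℕ) : ℂ := (qExpansion 1 f).coeff n

/-- the number of the `1 ≤ n ≤ M` for which `r = ⌊α P(n)⌋` is positive and `|a_f(r)| > r ^ (1/4 + ε)` -/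
noncomputable def exceptions (f : ℍ → ℂ) (ε α : ℝ) (P : Polynomial ℤ) (M : ℕ) : ℕ :=
  ((Icc 1 M).filter fun n : ℕ => 0 < ⌊α * ((P.eval (n : ℤ) : ℤ) : ℝ)⌋₊ ∧
    ((⌊α * ((P.eval (n : ℤ) : ℤ) : ℝ)⌋₊ : ℕ) : ℝ) ^ (1 / 4 + ε) < ‖coeff f ⌊α * ((P.eval (n : ℤ) : ℤ) : ℝ)⌋₊‖).card

theorem conv {N : ℕ} {χ : DirichletCharacter ℂ N} {f : ℍ → ℂ} (hf : IsCuspForm N χ f) :
    Pool.Agent.Q84.HW.IsCuspForm N χ f := ⟨hf.holo, hf.slash, hf.zero⟩

/-- the positive integers `r` with `|a_f(r)| > r ^ (1/4 + ε)` -/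
def Large (f : ℍ → ℂ) (ε : ℝ) (r : ℕ) : Prop := 0 < r ∧ (r : ℝ) ^ (1 / 4 + ε) < ‖coeff f r‖

/-- few coefficients are large -/
theorem count {N : ℕ} (hN : 0 < N) {χ : DirichletCharacter ℂ N} {f : ℍ → ℂ} (hf : IsCuspForm N χ f) (ε : ℝ)
    (hε : 0 < ε) (hε1 : ε ≤ 1 / 4) : ∃ C : ℝ, ∀ Y : ℕ, 3 ≤ Y → cn (Large f ε) Y ≤ C * (Y : ℝ) ^ (1 - ε) := by
  have : NeZero N := ⟨hN.ne'⟩
  obtain ⟨C, hC0, hC⟩ := Pool.Agent.Q84.HW.mean_square (conv hf)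
  refine ⟨C + 1, fun Y hY => ?_⟩
  have hY0 : (0 : ℝ) < Y := by exact_mod_cast (by omega : 0 < Y)
  have hY1 : (1 : ℝ) ≤ Y := by exact_mod_cast (by omega : 1 ≤ Y)
  obtain ⟨y, hy⟩ : ∃ y : ℕ, y = ⌊(Y : ℝ) ^ (1 - ε)⌋₊ := ⟨_, rfl⟩
  have hyle : (y : ℝ) ≤ (Y : ℝ) ^ (1 - ε) := by rw [hy]; exact Nat.floor_le (by positivity)
  have hylt : (Y : ℝ) ^ (1 - ε) < y + 1 := by rw [hy]; exact Nat.lt_floor_add_one _
  obtain ⟨F, hF⟩ : ∃ F, F = (Ioc y Y).filter fun n : ℕ => Large f ε n := ⟨_, rfl⟩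
  have h1 : (F.card : ℝ) * ((Y : ℝ) ^ (1 - ε)) ^ (1 / 2 + 2 * ε) ≤ C * (Y : ℝ) ^ (3 / 2 : ℝ) := by
    calc (F.card : ℝ) * ((Y : ℝ) ^ (1 - ε)) ^ (1 / 2 + 2 * ε) = ∑ _n ∈ F, ((Y : ℝ) ^ (1 - ε)) ^ (1 / 2 + 2 * ε) := by
          rw [sum_const, nsmul_eq_mul]
      _ ≤ ∑ n ∈ F, ‖coeff f n‖ ^ 2 := by
          apply sum_le_sum
          intro n hn
          rw [hF, mem_filter, mem_Ioc] at hn
          obtain ⟨⟨h1, _⟩, _, h2⟩ := hn
          have hnK : (Y : ℝ) ^ (1 - ε) ≤ n := by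
            have : (y : ℝ) + 1 ≤ n := by exact_mod_cast h1
            linarith
          calc ((Y : ℝ) ^ (1 - ε)) ^ (1 / 2 + 2 * ε) ≤ (n : ℝ) ^ (1 / 2 + 2 * ε) :=
                Real.rpow_le_rpow (by positivity) hnK (by positivity)
            _ = ((n : ℝ) ^ (1 / 4 + ε)) ^ 2 := by
                rw [← Real.rpow_natCast, ← Real.rpow_mul (Nat.cast_nonneg n)]
                congr 1
                push_cast
                ring
            _ ≤ ‖coeff f n‖ ^ 2 := pow_le_pow_left₀ (by positivity) h2.le 2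
      _ ≤ ∑ n ∈ range (Y + 1), ‖coeff f n‖ ^ 2 := by
          apply sum_le_sum_of_subset_of_nonneg
          · intro n hn
            rw [hF, mem_filter, mem_Ioc] at hn
            rw [mem_range]
            omega
          · intro n _ _
            positivity
      _ ≤ C * (Y : ℝ) ^ (3 / 2 : ℝ) := hC Y (by omega)
  have h2 : (F.card : ℝ) ≤ C * (Y : ℝ) ^ (1 - ε) := by
    rw [← Real.rpow_mul hY0.le] at h1
    have h3 : C * (Y : ℝ) ^ (3 / 2 : ℝ) ≤ C * (Y : ℝ) ^ (1 - ε) * (Y : ℝ) ^ ((1 - ε) * (1 / 2 + 2 * ε)) := by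
      rw [mul_assoc, ← Real.rpow_add hY0]
      refine mul_le_mul_of_nonneg_left (Real.rpow_le_rpow_of_exponent_le hY1 ?_) hC0
      nlinarith
    exact le_of_mul_le_mul_right (h1.trans h3) (by positivity)
  have h3 : cn (Large f ε) Y ≤ y + F.card := by
    unfold cn
    have h4 : (Icc 1 Y).filter (Large f ε) ⊆ Icc 1 y ∪ F := by
      intro n hn
      rw [mem_filter, mem_Icc] at hn
      rw [mem_union, hF, mem_filter, mem_Icc, mem_Ioc]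
      obtain ⟨⟨h5, h6⟩, h7⟩ := hn
      by_cases h8 : n ≤ y
      · exact Or.inl ⟨h5, h8⟩
      · exact Or.inr ⟨⟨by omega, h6⟩, h7⟩
    have h5 := (card_le_card h4).trans (card_union_le _ _)
    rw [Nat.card_Icc] at h5
    have h6 : ((Icc 1 Y).filter (Large f ε)).card ≤ y + F.card := by
      refine h5.trans (Nat.add_le_add_right ?_ _)
      omega
    exact_mod_cast h6
  linarith

/-- **Theorem.** -/
theorem result {ι : Type} [Countable ι] (N : ι → ℕ) (hN : ∀ i, 0 < N i ∧ 4 ∣ N i)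
    (χ : (i : ι) → DirichletCharacter ℂ (N i)) (f : ι → ℍ → ℂ) (hf : ∀ i, IsCuspForm (N i) (χ i) (f i)) (q : ℕ)
    (hq : 2 ≤ q) :
    (∀ (i : ι) (z : ℍ), HasSum (fun n : ℕ => coeff (f i) n * Complex.exp (2 * Real.pi * Complex.I * n * z)) (f i z)) ∧
    ∃ E : Set ℝ, dimH E ≤ ENNReal.ofReal (q / (q + 1 / ((q : ℝ) * 2 ^ (q - 1)))) ∧ ∀ α : ℝ, 0 < α → α ∉ E →
      ∀ (i : ι) (ε : ℝ), 0 < ε → ∃ η ρ : ℝ, 0 < η ∧ 0 < ρ ∧ ∀ᶠ M : ℕ in atTop, ∀ P : Polynomial ℤ,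
        P.natDegree = q → 0 < P.leadingCoeff → (∀ j, |((P.coeff j : ℤ) : ℝ)| ≤ (M : ℝ) ^ η) →
        (exceptions (f i) ε α P M : ℝ) ≤ (M : ℝ) ^ (1 - ρ) := by
  refine ⟨fun i z => Pool.Agent.Q84.HW.hasSum_coeff (conv (hf i)) z, ?_⟩
  obtain ⟨E, hE, h⟩ := exc_nat q hq fun (p : ι × ℕ) => Large (f p.1) (1 / ((p.2 : ℝ) + 4))
  refine ⟨E, hE, fun α hα hαE i ε hε => ?_⟩
  obtain ⟨k, hk⟩ := exists_nat_one_div_lt hε
  obtain ⟨η, hη, -, -, h1⟩ := h α hα hαE (i, k)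
  have hk4 : (0 : ℝ) < 1 / ((k : ℝ) + 4) := by positivity
  have hk5 : 1 / ((k : ℝ) + 4) ≤ 1 / 4 := by
    refine one_div_le_one_div_of_le (by norm_num) ?_
    have : (0 : ℝ) ≤ k := Nat.cast_nonneg k
    linarith
  have hk6 : 1 / ((k : ℝ) + 4) ≤ ε := by
    refine le_trans (one_div_le_one_div_of_le (by positivity) ?_) hk.le
    linarith
  obtain ⟨C, hC⟩ := count (hN i).1 (hf i) (1 / ((k : ℝ) + 4)) hk4 hk5
  refine ⟨η, min (1 / ((k : ℝ) + 4) / 4) (η / 2), hη, by positivity, ?_⟩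
  filter_upwards [h1 (1 / ((k : ℝ) + 4)) C hk4 (by linarith) hC] with M hM P hdeg hlead hco
  refine le_trans ?_ (hM P hdeg hlead hco)
  unfold exceptions cnP cn
  refine Nat.cast_le.2 (card_le_card ?_)
  intro n hn
  rw [mem_filter] at hn ⊢
  refine ⟨hn.1, hn.2.1, lt_of_le_of_lt ?_ hn.2.2⟩
  have hB : (1 : ℝ) ≤ (⌊α * ((P.eval (n : ℤ) : ℤ) : ℝ)⌋₊ : ℝ) := by exact_mod_cast hn.2.1
  exact Real.rpow_le_rpow_of_exponent_le hB (by linarith)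

end Pool.Agent.Results.MP_af11aa_nt.CoefficientsAlongRealMultiples
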