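import Pool.Agent.Q84.HW.Mean
import Pool.Agent.Y854.GM.WinV

/-!
# The Ramanujan bound for coefficients of weight 3/2 in all windows around the multiples of almost every number

Let `(f_i)` be a countable family of cusp forms of weight `3/2` on `Γ₀(N_i)`, `4 ∣ N_i`, with characters, in Shimura's
normalisation (for instance the union of bases of all the spaces `S_{3/2}(24 p, χ)`), `a_i(n)` their coefficients. Let
`v_k ≥ 1` be a sequence with exponent of convergence at most `τ` (`1 / κ` for `v_k = k ^ κ`, `0` for `v_k = b ^ k`) and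
`0 ≤ θ < 1`.

* For `0 ≤ δ ≤ 1 - θ` there is a set `E` of Hausdorff dimension at most `1 - (δ - τ) / (1 - θ)` such that for each `α > 0`
  outside `E` and each finite linear combination `a(n) = ∑ c_i a_i(n)`, for all large `k`,
  `∑ |a(n)| ^ 2 ≤ v_k ^ (1/2 + θ + δ)`, the sum over the `n` with `|n - α v_k| ≤ v_k ^ θ`.
* For `0 < ε ≤ 1/2` there is a set `E` of Hausdorff dimension at most `(1 - 2 ε + τ) / (1 - θ)` such that for each `α > 0`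
  outside `E` and each finite linear combination `a(n)`, for all large `k`, `|a(n)| ≤ n ^ (1/4 + ε)` for ALL `n` with
  `|n - α v_k| ≤ v_k ^ θ`.

Method: `∑_{n ≤ X} |a(n)| ^ 2 ≤ C X ^ (3/2)` (`Q84/HW`); blocks of length `v_k ^ θ`; covering argument (`Y854/GM/WinV`).
-/

set_option autoImplicit false

open scoped Classical MatrixGroups

namespace Pool.Agent.Results.MP_af11aa_nt.NearMultiples

open Finset Filter UpperHalfPlane CongruenceSubgroup Topology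

/-- `ε_d` for odd `d`: `1` if `d ≡ 1 mod 4`, `i` if `d ≡ 3 mod 4` -/
noncomputable def eps (d : ℤ) : ℂ := if d % 4 = 1 then 1 else Complex.I

/-- Shimura's symbol `(c/d)`, `d` odd -/
def sym (c d : ℤ) : ℤ := if c < 0 ∧ d < 0 then -jacobiSym c d.natAbs else jacobiSym c d.natAbs

/-- the theta multiplier `j(γ, z) = ε_d⁻¹ (c/d) (c z + d) ^ (1/2)` -/
noncomputable def j (γ : SL(2, ℤ)) (z : ℍ) : ℂ :=
  (eps (γ 1 1))⁻¹ * (sym (γ 1 0) (γ 1 1) : ℂ) * ((γ 1 0 : ℂ) * z + (γ 1 1 : ℂ)) ^ (1 / 2 : ℂ)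

/-- `f` is a cusp form of weight `3/2` on `Γ₀(N)` with character `χ`: holomorphic,
`f(γ z) = χ(d) j(γ, z) ^ 3 f(z)` for `γ` in `Γ₀(N)`, and `f(σ z) (c z + d) ^ (-3/2)` tends to `0` for `Im z → ∞`, for
every `σ` in `SL₂(ℤ)` -/
structure IsCuspForm (N : ℕ) (χ : DirichletCharacter ℂ N) (f : ℍ → ℂ) : Prop where
  holo : MDifferentiable (modelWithCornersSelf ℂ ℂ) (modelWithCornersSelf ℂ ℂ) f
  slash : ∀ γ ∈ Gamma0 N, ∀ z : ℍ, f (γ • z) = χ ((γ 1 1 : ℤ) : ZMod N) * j γ z ^ 3 * f z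
  zero : ∀ σ : SL(2, ℤ), IsZeroAtImInfty fun z : ℍ => f (σ • z) * ((σ 1 0 : ℂ) * z + (σ 1 1 : ℂ)) ^ (-(3 / 2) : ℂ)

/-- the coefficient `a_f(n)` of `e^(2 π i n z)` -/
noncomputable def coeff (f : ℍ → ℂ) (n : ℕ) : ℂ := (qExpansion 1 f).coeff n

/-- the exponent of convergence of the sequence `v` is at most `τ` -/
def ExpLe (v : ℕ → ℝ) (τ : ℝ) : Prop := ∀ t : ℝ, τ < t → Summable (fun k : ℕ => (v k) ^ (-t))

theorem conv {N : ℕ} {χ : DirichletCharacter ℂ N} {f : ℍ → ℂ} (hf : IsCuspForm N χ f) :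
    Pool.Agent.Q84.HW.IsCuspForm N χ f := ⟨hf.holo, hf.slash, hf.zero⟩

/-- the block `t` of length `L` -/
noncomputable def blk (L : ℝ) (t M : ℕ) : Finset ℕ := (range (M + 1)).filter fun m : ℕ => ⌊(m : ℝ) / L⌋₊ = t

/-- number of bad blocks -/
theorem bad {a : ℕ → ℂ} {C : ℝ} (hC0 : 0 ≤ C)
    (hC : ∀ X : ℕ, 1 ≤ X → ∑ n ∈ range (X + 1), ‖a n‖ ^ 2 ≤ C * (X : ℝ) ^ (3 / 2 : ℝ)) {V L Y : ℝ} (hL : 1 ≤ L)
    (hLV : L ≤ V) (A : ℕ) :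
    {t : ℕ | (∃ M : ℕ, Y < ∑ m ∈ blk L t M, ‖a m‖ ^ 2) ∧ (t : ℝ) * L ≤ ((A : ℝ) + 1) * V}.Finite ∧
      ({t : ℕ | (∃ M : ℕ, Y < ∑ m ∈ blk L t M, ‖a m‖ ^ 2) ∧ (t : ℝ) * L ≤ ((A : ℝ) + 1) * V}.ncard : ℝ) * Y ≤
        C * (((A : ℝ) + 2) * V) ^ (3 / 2 : ℝ) := by
  have hL0 : 0 < L := by linarith
  have hV : 1 ≤ V := hL.trans hLV
  obtain ⟨S, hS⟩ : ∃ S, S = {t : ℕ | (∃ M : ℕ, Y < ∑ m ∈ blk L t M, ‖a m‖ ^ 2) ∧ (t : ℝ) * L ≤ ((A : ℝ) + 1) * V} :=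
    ⟨_, rfl⟩
  rw [← hS]
  have hfin : S.Finite := by
    refine (Set.finite_Iic ⌊((A : ℝ) + 1) * V⌋₊).subset fun t ht => ?_
    rw [hS] at ht
    refine Nat.le_floor ?_
    have h1 : (t : ℝ) * 1 ≤ (t : ℝ) * L := mul_le_mul_of_nonneg_left hL (Nat.cast_nonneg t)
    linarith [ht.2]
  refine ⟨hfin, ?_⟩
  have hcast : (S.ncard : ℝ) = (hfin.toFinset.card : ℝ) := by
    rw [Set.ncard_eq_toFinset_card S hfin]
  obtain ⟨X, hX⟩ : ∃ X : ℕ, X = ⌊((A : ℝ) + 2) * V⌋₊ := ⟨_, rfl⟩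
  have hAV : 1 ≤ ((A : ℝ) + 2) * V := by
    have : (0 : ℝ) ≤ A := Nat.cast_nonneg A
    nlinarith
  have hX1 : 1 ≤ X := by
    rw [hX]
    exact Nat.le_floor (by exact_mod_cast hAV)
  have hXle : (X : ℝ) ≤ ((A : ℝ) + 2) * V := by
    rw [hX]
    exact Nat.floor_le (by linarith)
  have hblk : ∀ t ∈ hfin.toFinset, Y ≤ ∑ m ∈ (range (X + 1)).filter (fun m : ℕ => ⌊(m : ℝ) / L⌋₊ = t), ‖a m‖ ^ 2 := by
    intro t ht
    rw [Set.Finite.mem_toFinset, hS] at ht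
    obtain ⟨⟨M, hM⟩, h2⟩ := ht
    refine hM.le.trans (sum_le_sum_of_subset_of_nonneg ?_ fun _ _ _ => by positivity)
    intro m hm
    unfold blk at hm
    rw [mem_filter, mem_range] at hm
    rw [mem_filter, mem_range]
    refine ⟨?_, hm.2⟩
    have h3 : (m : ℝ) / L < t + 1 := by
      have := Nat.lt_floor_add_one ((m : ℝ) / L)
      rwa [hm.2] at this
    rw [div_lt_iff₀ hL0] at h3
    have h4 : (m : ℝ) ≤ ((A : ℝ) + 2) * V := by nlinarith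
    have h5 : m ≤ X := by
      rw [hX]
      exact Nat.le_floor h4
    omega
  calc (S.ncard : ℝ) * Y = ∑ _t ∈ hfin.toFinset, Y := by rw [sum_const, nsmul_eq_mul, hcast]
    _ ≤ ∑ t ∈ hfin.toFinset, ∑ m ∈ (range (X + 1)).filter (fun m : ℕ => ⌊(m : ℝ) / L⌋₊ = t), ‖a m‖ ^ 2 :=
        sum_le_sum hblk
    _ = ∑ m ∈ (hfin.toFinset).biUnion (fun t => (range (X + 1)).filter (fun m : ℕ => ⌊(m : ℝ) / L⌋₊ = t)),
          ‖a m‖ ^ 2 := by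
        rw [sum_biUnion]
        intro t _ t' _ htt
        refine disjoint_left.2 fun m hm hm' => htt ?_
        rw [mem_filter] at hm hm'
        exact hm.2.symm.trans hm'.2
    _ ≤ ∑ m ∈ range (X + 1), ‖a m‖ ^ 2 := by
        refine sum_le_sum_of_subset_of_nonneg ?_ fun _ _ _ => by positivity
        intro m hm
        rw [mem_biUnion] at hm
        obtain ⟨t, _, h⟩ := hm
        exact (mem_filter.1 h).1
    _ ≤ C * (X : ℝ) ^ (3 / 2 : ℝ) := hC X hX1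
    _ ≤ C * (((A : ℝ) + 2) * V) ^ (3 / 2 : ℝ) :=
        mul_le_mul_of_nonneg_left (Real.rpow_le_rpow (Nat.cast_nonneg X) hXle (by norm_num)) hC0

/-- one form -/
theorem one {a : ℕ → ℂ} {C : ℝ} (hC0 : 0 ≤ C)
    (hC : ∀ X : ℕ, 1 ≤ X → ∑ n ∈ range (X + 1), ‖a n‖ ^ 2 ≤ C * (X : ℝ) ^ (3 / 2 : ℝ)) {v : ℕ → ℝ} {τ θ δ : ℝ}
    (hv : ∀ k, 1 ≤ v k) (hτ : 0 ≤ τ) (hE : ExpLe v τ) (hθ : 0 ≤ θ) (hθ1 : θ < 1) (hδ1 : δ ≤ 1 - θ) :
    ∃ E : Set ℝ, dimH E ≤ ENNReal.ofReal ((1 - θ - δ + τ) / (1 - θ)) ∧ ∀ α : ℝ, 0 < α → α ∉ E →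
      ∃ k₀ : ℕ, ∀ k : ℕ, k₀ ≤ k → ∀ W : Finset ℕ, (∀ n ∈ W, |(n : ℝ) - α * v k| ≤ (v k) ^ θ) →
        (1 + Real.log (v k)) * ∑ n ∈ W, ‖a n‖ ^ 2 ≤ 6 * (v k) ^ (1 / 2 + θ + δ) := by
  have hvlog : ∀ k, 0 ≤ Real.log (v k) := fun k => Real.log_nonneg (hv k)
  have hv0 : ∀ k, 0 < v k := fun k => lt_of_lt_of_le one_pos (hv k)
  obtain ⟨Y, hY⟩ : ∃ Y : ℕ → ℝ, Y = fun k => (v k) ^ (1 / 2 + θ + δ) / (1 + Real.log (v k)) := ⟨_, rfl⟩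
  have hY0 : ∀ k, 0 < Y k := by
    intro k
    rw [hY]
    have := hvlog k
    have := hv0 k
    positivity
  have hvL : ∀ k, 1 ≤ (v k) ^ θ := fun k => Real.one_le_rpow (hv k) hθ
  have hvLV : ∀ k, (v k) ^ θ ≤ v k := fun k => by
    calc (v k) ^ θ ≤ (v k) ^ (1 : ℝ) := Real.rpow_le_rpow_of_exponent_le (hv k) hθ1.le
      _ = v k := Real.rpow_one _
  obtain ⟨S, hS⟩ : ∃ S : ℕ → Set ℕ, S = fun k => {t : ℕ | ∃ M : ℕ, Y k < ∑ m ∈ blk ((v k) ^ θ) t M, ‖a m‖ ^ 2} :=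
    ⟨_, rfl⟩
  obtain ⟨E, hE1, hE2⟩ := Pool.Agent.Y854.GM.windowsV S (fun k t => (t : ℝ) * (v k) ^ θ) (θ := θ) 2 hv hτ hE
    (s := 1 - θ - δ) (by linarith) hθ1 (by
      intro A ε hε
      refine ⟨C * ((A : ℝ) + 2) ^ (3 / 2 : ℝ) * (1 + 1 / ε), 0, fun k _ => ?_⟩
      obtain ⟨h1, h2⟩ := bad (Y := Y k) hC0 hC (hvL k) (hvLV k) A
      have hset : {t | t ∈ S k ∧ (t : ℝ) * (v k) ^ θ ≤ ((A : ℝ) + 1) * v k} =
          {t : ℕ | (∃ M : ℕ, Y k < ∑ m ∈ blk ((v k) ^ θ) t M, ‖a m‖ ^ 2) ∧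
            (t : ℝ) * (v k) ^ θ ≤ ((A : ℝ) + 1) * v k} := by
        rw [hS]
        rfl
      rw [hset]
      refine ⟨h1, ?_⟩
      obtain ⟨n, hn⟩ : ∃ n : ℝ, n = ({t : ℕ | (∃ M : ℕ, Y k < ∑ m ∈ blk ((v k) ^ θ) t M, ‖a m‖ ^ 2) ∧
            (t : ℝ) * (v k) ^ θ ≤ ((A : ℝ) + 1) * v k}.ncard : ℝ) := ⟨_, rfl⟩
      rw [← hn] at h2 ⊢
      have hn0 : 0 ≤ n := by rw [hn]; positivity
      have hlog := hvlog k
      have hvk := hv0 k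
      have h3 : n * (v k) ^ (1 / 2 + θ + δ) ≤
          C * ((A : ℝ) + 2) ^ (3 / 2 : ℝ) * (1 + Real.log (v k)) * (v k) ^ (3 / 2 : ℝ) := by
        rw [hY] at h2
        have h4 : n * ((v k) ^ (1 / 2 + θ + δ) / (1 + Real.log (v k))) =
            n * (v k) ^ (1 / 2 + θ + δ) / (1 + Real.log (v k)) := by ring
        simp only [] at h2
        rw [h4, div_le_iff₀ (by linarith), Real.mul_rpow (by positivity) hvk.le] at h2
        calc n * (v k) ^ (1 / 2 + θ + δ) ≤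
            C * (((A : ℝ) + 2) ^ (3 / 2 : ℝ) * (v k) ^ (3 / 2 : ℝ)) * (1 + Real.log (v k)) := h2
          _ = _ := by ring
      have h5 : (v k) ^ (3 / 2 : ℝ) = (v k) ^ (1 - θ - δ) * (v k) ^ (1 / 2 + θ + δ) := by
        rw [← Real.rpow_add hvk]
        congr 1
        ring
      rw [h5, ← mul_assoc] at h3
      have h6 : n ≤ C * ((A : ℝ) + 2) ^ (3 / 2 : ℝ) * (1 + Real.log (v k)) * (v k) ^ (1 - θ - δ) :=
        le_of_mul_le_mul_right h3 (by positivity)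
      have h7 : 1 + Real.log (v k) ≤ (1 + 1 / ε) * (v k) ^ ε := by
        have h8 : Real.log (v k) ≤ (v k) ^ ε / ε := Real.log_le_rpow_div hvk.le hε
        have h9 : 1 ≤ (v k) ^ ε := Real.one_le_rpow (hv k) hε.le
        have h10 : (1 + 1 / ε) * (v k) ^ ε = (v k) ^ ε + (v k) ^ ε / ε := by ring
        linarith
      calc n ≤ C * ((A : ℝ) + 2) ^ (3 / 2 : ℝ) * (1 + Real.log (v k)) * (v k) ^ (1 - θ - δ) := h6
        _ ≤ C * ((A : ℝ) + 2) ^ (3 / 2 : ℝ) * ((1 + 1 / ε) * (v k) ^ ε) * (v k) ^ (1 - θ - δ) := by gcongr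
        _ = C * ((A : ℝ) + 2) ^ (3 / 2 : ℝ) * (1 + 1 / ε) * (v k) ^ (1 - θ - δ + ε) := by
            rw [Real.rpow_add hvk]
            ring)
  refine ⟨E, hE1, fun α hα hαE => ?_⟩
  obtain ⟨k₀, hk₀⟩ := hE2 α hα hαE
  refine ⟨k₀, fun k hk W hW => ?_⟩
  have hL := hvL k
  obtain ⟨L, hLd⟩ : ∃ L : ℝ, L = (v k) ^ θ := ⟨_, rfl⟩
  rw [← hLd] at hW hL
  have hL0 : 0 < L := by linarith
  have hlog := hvlog k
  obtain ⟨M, hM⟩ : ∃ M : ℕ, ∀ n ∈ W, n ≤ M := ⟨W.sup id, fun n hn => Finset.le_sup (f := id) hn⟩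
  obtain ⟨T, hT⟩ : ∃ T : Finset ℕ, T = W.image fun n : ℕ => ⌊(n : ℝ) / L⌋₊ := ⟨_, rfl⟩
  have hnear : ∀ t ∈ T, |(t : ℝ) * L - α * v k| ≤ 2 * L := by
    intro t ht
    rw [hT, mem_image] at ht
    obtain ⟨n, hn, rfl⟩ := ht
    have h1 := hW n hn
    have h2 : (⌊(n : ℝ) / L⌋₊ : ℝ) * L ≤ n := by
      have := Nat.floor_le (show (0 : ℝ) ≤ (n : ℝ) / L by positivity)
      rwa [le_div_iff₀ hL0] at this
    have h3 : (n : ℝ) < ((⌊(n : ℝ) / L⌋₊ : ℝ) + 1) * L := by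
      have := Nat.lt_floor_add_one ((n : ℝ) / L)
      rwa [div_lt_iff₀ hL0] at this
    rw [abs_le] at h1 ⊢
    constructor <;> nlinarith [h1.1, h1.2]
  have hgood : ∀ t ∈ T, ∀ M : ℕ, ∑ m ∈ blk L t M, ‖a m‖ ^ 2 ≤ Y k := by
    intro t ht M
    by_contra hcon
    have h1 : t ∈ S k := by
      rw [hS]
      exact ⟨M, by rw [← hLd]; exact not_le.1 hcon⟩
    have h2 := hk₀ k hk t h1
    rw [← hLd] at h2
    exact absurd (hnear t ht) (not_le.2 h2)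
  have hTcard : T.card ≤ 5 := by
    by_cases hne : T.Nonempty
    · have h1 : T ⊆ Icc (T.min' hne) (T.min' hne + 4) := by
        intro t ht
        rw [mem_Icc]
        refine ⟨T.min'_le t ht, ?_⟩
        have h2 := hnear t ht
        have h3 := hnear _ (T.min'_mem hne)
        rw [abs_le] at h2 h3
        have h4 : (t : ℝ) * L ≤ ((T.min' hne : ℕ) : ℝ) * L + 4 * L := by linarith [h2.2, h3.1]
        have h5 : (t : ℝ) ≤ ((T.min' hne : ℕ) : ℝ) + 4 := by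
          have h6 : (t : ℝ) * L ≤ (((T.min' hne : ℕ) : ℝ) + 4) * L := by linarith
          exact le_of_mul_le_mul_right h6 hL0
        exact_mod_cast h5
      calc T.card ≤ (Icc (T.min' hne) (T.min' hne + 4)).card := card_le_card h1
        _ = 5 := by
            rw [Nat.card_Icc]
            omega
    · rw [not_nonempty_iff_eq_empty] at hne
      rw [hne]
      simp
  have hsum : ∑ n ∈ W, ‖a n‖ ^ 2 ≤ 5 * Y k := by
    calc ∑ n ∈ W, ‖a n‖ ^ 2 ≤ ∑ n ∈ T.biUnion (fun t => blk L t M), ‖a n‖ ^ 2 := by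
          refine sum_le_sum_of_subset_of_nonneg ?_ fun _ _ _ => by positivity
          intro n hn
          rw [mem_biUnion]
          refine ⟨⌊(n : ℝ) / L⌋₊, ?_, ?_⟩
          · rw [hT, mem_image]
            exact ⟨n, hn, rfl⟩
          · unfold blk
            rw [mem_filter, mem_range]
            exact ⟨by have := hM n hn; omega, rfl⟩
      _ ≤ ∑ t ∈ T, ∑ n ∈ blk L t M, ‖a n‖ ^ 2 := by
          rw [sum_biUnion]
          intro t _ t' _ htt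
          refine disjoint_left.2 fun m hm hm' => htt ?_
          unfold blk at hm hm'
          rw [mem_filter] at hm hm'
          exact hm.2.symm.trans hm'.2
      _ ≤ ∑ _t ∈ T, Y k := sum_le_sum fun t ht => hgood t ht M
      _ = (T.card : ℝ) * Y k := by rw [sum_const, nsmul_eq_mul]
      _ ≤ 5 * Y k := by
          refine mul_le_mul_of_nonneg_right ?_ (hY0 k).le
          exact_mod_cast hTcard
  have hvk := hv0 k
  calc (1 + Real.log (v k)) * ∑ n ∈ W, ‖a n‖ ^ 2 ≤ (1 + Real.log (v k)) * (5 * Y k) :=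
        mul_le_mul_of_nonneg_left hsum (by linarith)
    _ = 5 * (v k) ^ (1 / 2 + θ + δ) := by
        rw [hY]
        field_simp
    _ ≤ 6 * (v k) ^ (1 / 2 + θ + δ) := by
        have : 0 < (v k) ^ (1 / 2 + θ + δ) := by positivity
        linarith

/-- countable families and linear combinations -/
theorem core {ι : Type} [Countable ι] (N : ι → ℕ) (hN : ∀ i, 0 < N i ∧ 4 ∣ N i)
    (χ : (i : ι) → DirichletCharacter ℂ (N i)) (f : ι → ℍ → ℂ) (hf : ∀ i, IsCuspForm (N i) (χ i) (f i)) {v : ℕ → ℝ}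
    {τ θ δ : ℝ} (hv : ∀ k, 1 ≤ v k) (hτ : 0 ≤ τ) (hE : ExpLe v τ) (hθ : 0 ≤ θ) (hθ1 : θ < 1) (hδ1 : δ ≤ 1 - θ) :
    ∃ E : Set ℝ, dimH E ≤ ENNReal.ofReal ((1 - θ - δ + τ) / (1 - θ)) ∧ ∀ α : ℝ, 0 < α → α ∉ E →
      ∀ (s : Finset ι) (c : ι → ℂ) (K : ℝ), 0 < K → ∃ k₀ : ℕ, ∀ k : ℕ, k₀ ≤ k → ∀ W : Finset ℕ,
        (∀ n ∈ W, |(n : ℝ) - α * v k| ≤ (v k) ^ θ) →
        K * ∑ n ∈ W, ‖∑ i ∈ s, c i * coeff (f i) n‖ ^ 2 ≤ (v k) ^ (1 / 2 + θ + δ) := by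
  have h1 : ∀ i, ∃ E : Set ℝ, dimH E ≤ ENNReal.ofReal ((1 - θ - δ + τ) / (1 - θ)) ∧ ∀ α : ℝ, 0 < α → α ∉ E →
      ∃ k₀ : ℕ, ∀ k : ℕ, k₀ ≤ k → ∀ W : Finset ℕ, (∀ n ∈ W, |(n : ℝ) - α * v k| ≤ (v k) ^ θ) →
        (1 + Real.log (v k)) * ∑ n ∈ W, ‖coeff (f i) n‖ ^ 2 ≤ 6 * (v k) ^ (1 / 2 + θ + δ) := by
    intro i
    have : NeZero (N i) := ⟨(hN i).1.ne'⟩
    obtain ⟨C, hC0, hC⟩ := Pool.Agent.Q84.HW.mean_square (conv (hf i))
    exact one hC0 hC hv hτ hE hθ hθ1 hδ1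
  choose E hE1 hE2 using h1
  refine ⟨⋃ i, E i, ?_, fun α hα hαE s c K hK => ?_⟩
  · rw [dimH_iUnion]
    exact iSup_le hE1
  have h2 : ∀ i, ∃ k₀ : ℕ, ∀ k : ℕ, k₀ ≤ k → ∀ W : Finset ℕ, (∀ n ∈ W, |(n : ℝ) - α * v k| ≤ (v k) ^ θ) →
        (1 + Real.log (v k)) * ∑ n ∈ W, ‖coeff (f i) n‖ ^ 2 ≤ 6 * (v k) ^ (1 / 2 + θ + δ) := fun i =>
    hE2 i α hα fun h => hαE (Set.mem_iUnion.2 ⟨i, h⟩)
  choose k₁ hk₁ using h2
  obtain ⟨B, hB⟩ : ∃ B : ℝ, B = ∑ i ∈ s, ‖c i‖ ^ 2 := ⟨_, rfl⟩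
  have hB0 : 0 ≤ B := by
    rw [hB]
    exact sum_nonneg fun _ _ => by positivity
  have hvt : Tendsto v atTop atTop :=
    Pool.Agent.Y854.GM.tendsto_of_expLe (fun k => lt_of_lt_of_le one_pos (hv k)) hτ hE
  have hlt : Tendsto (fun k => Real.log (v k)) atTop atTop := Real.tendsto_log_atTop.comp hvt
  obtain ⟨k₂, hk₂⟩ := eventually_atTop.1 (hlt.eventually_ge_atTop (K * (B * (s.card * 6))))
  refine ⟨max (s.sup k₁) k₂, fun k hk W hW => ?_⟩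
  have hlog := hk₂ k ((le_max_right _ _).trans hk)
  have hlog0 : 0 ≤ Real.log (v k) := Real.log_nonneg (hv k)
  have hk1 : ∀ i ∈ s, (1 + Real.log (v k)) * ∑ n ∈ W, ‖coeff (f i) n‖ ^ 2 ≤ 6 * (v k) ^ (1 / 2 + θ + δ) := by
    intro i hi
    exact hk₁ i k ((Finset.le_sup hi).trans ((le_max_left _ _).trans hk)) W hW
  have h3 : ∀ n, ‖∑ i ∈ s, c i * coeff (f i) n‖ ^ 2 ≤ B * ∑ i ∈ s, ‖coeff (f i) n‖ ^ 2 := by
    intro n
    calc ‖∑ i ∈ s, c i * coeff (f i) n‖ ^ 2 ≤ (∑ i ∈ s, ‖c i‖ * ‖coeff (f i) n‖) ^ 2 := by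
          refine pow_le_pow_left₀ (norm_nonneg _) ((norm_sum_le _ _).trans (le_of_eq ?_)) 2
          exact sum_congr rfl fun i _ => norm_mul _ _
      _ ≤ (∑ i ∈ s, ‖c i‖ ^ 2) * ∑ i ∈ s, ‖coeff (f i) n‖ ^ 2 := sum_mul_sq_le_sq_mul_sq _ _ _
      _ = _ := by rw [hB]
  have h4 : ∑ n ∈ W, ‖∑ i ∈ s, c i * coeff (f i) n‖ ^ 2 ≤ B * ∑ i ∈ s, ∑ n ∈ W, ‖coeff (f i) n‖ ^ 2 := by
    calc ∑ n ∈ W, ‖∑ i ∈ s, c i * coeff (f i) n‖ ^ 2 ≤ ∑ n ∈ W, B * ∑ i ∈ s, ‖coeff (f i) n‖ ^ 2 :=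
          sum_le_sum fun n _ => h3 n
      _ = _ := by rw [← mul_sum, sum_comm]
  have h5 : (1 + Real.log (v k)) * ∑ i ∈ s, ∑ n ∈ W, ‖coeff (f i) n‖ ^ 2 ≤
      s.card * (6 * (v k) ^ (1 / 2 + θ + δ)) := by
    rw [mul_sum]
    calc ∑ i ∈ s, (1 + Real.log (v k)) * ∑ n ∈ W, ‖coeff (f i) n‖ ^ 2 ≤
        ∑ _i ∈ s, 6 * (v k) ^ (1 / 2 + θ + δ) := sum_le_sum hk1
      _ = _ := by rw [sum_const, nsmul_eq_mul]
  have hvk : 0 < v k := lt_of_lt_of_le one_pos (hv k)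
  have hV : 0 < (v k) ^ (1 / 2 + θ + δ) := by positivity
  obtain ⟨Q, hQ⟩ : ∃ Q : ℝ, Q = ∑ n ∈ W, ‖∑ i ∈ s, c i * coeff (f i) n‖ ^ 2 := ⟨_, rfl⟩
  obtain ⟨R, hR⟩ : ∃ R : ℝ, R = ∑ i ∈ s, ∑ n ∈ W, ‖coeff (f i) n‖ ^ 2 := ⟨_, rfl⟩
  rw [← hQ] at h4 ⊢
  rw [← hR] at h4 h5
  have h6 : (1 + Real.log (v k)) * (K * Q) ≤ (1 + Real.log (v k)) * (v k) ^ (1 / 2 + θ + δ) := by
    calc (1 + Real.log (v k)) * (K * Q) ≤ (1 + Real.log (v k)) * (K * (B * R)) := by gcongr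
      _ = K * B * ((1 + Real.log (v k)) * R) := by ring
      _ ≤ K * B * (s.card * (6 * (v k) ^ (1 / 2 + θ + δ))) := mul_le_mul_of_nonneg_left h5 (by positivity)
      _ = K * (B * (s.card * 6)) * (v k) ^ (1 / 2 + θ + δ) := by ring
      _ ≤ (1 + Real.log (v k)) * (v k) ^ (1 / 2 + θ + δ) :=
          mul_le_mul_of_nonneg_right (by linarith) hV.le
  exact le_of_mul_le_mul_left h6 (by linarith)

/-- **Theorem.** -/
theorem result {ι : Type} [Countable ι] (N : ι → ℕ) (hN : ∀ i, 0 < N i ∧ 4 ∣ N i)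
    (χ : (i : ι) → DirichletCharacter ℂ (N i)) (f : ι → ℍ → ℂ) (hf : ∀ i, IsCuspForm (N i) (χ i) (f i)) :
    (∀ (i : ι) (z : ℍ), HasSum (fun n : ℕ => coeff (f i) n * Complex.exp (2 * Real.pi * Complex.I * n * z)) (f i z)) ∧
    (∀ (v : ℕ → ℝ) (τ θ : ℝ), (∀ k, 1 ≤ v k) → 0 ≤ τ → ExpLe v τ → 0 ≤ θ → θ < 1 →
      (∀ δ : ℝ, δ ≤ 1 - θ → ∃ E : Set ℝ, dimH E ≤ ENNReal.ofReal (1 - (δ - τ) / (1 - θ)) ∧ ∀ α : ℝ, 0 < α → α ∉ E →
        ∀ (s : Finset ι) (c : ι → ℂ), ∃ k₀ : ℕ, ∀ k : ℕ, k₀ ≤ k → ∀ W : Finset ℕ,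
          (∀ n ∈ W, |(n : ℝ) - α * v k| ≤ (v k) ^ θ) →
          ∑ n ∈ W, ‖∑ i ∈ s, c i * coeff (f i) n‖ ^ 2 ≤ (v k) ^ (1 / 2 + θ + δ)) ∧
      (∀ ε : ℝ, 0 < ε → ε ≤ 1 / 2 → ∃ E : Set ℝ, dimH E ≤ ENNReal.ofReal ((1 - 2 * ε + τ) / (1 - θ)) ∧
        ∀ α : ℝ, 0 < α → α ∉ E → ∀ (s : Finset ι) (c : ι → ℂ), ∃ k₀ : ℕ, ∀ k : ℕ, k₀ ≤ k → ∀ n : ℕ,
          |(n : ℝ) - α * v k| ≤ (v k) ^ θ → ‖∑ i ∈ s, c i * coeff (f i) n‖ ≤ (n : ℝ) ^ (1 / 4 + ε))) ∧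
    (∀ κ : ℝ, 0 < κ → ExpLe (fun k : ℕ => ((k : ℝ) + 1) ^ κ) (1 / κ)) ∧
    (∀ b : ℝ, 1 < b → ExpLe (fun k : ℕ => b ^ k) 0) := by
  refine ⟨fun i z => Pool.Agent.Q84.HW.hasSum_coeff (conv (hf i)) z,
    fun v τ θ hv hτ hE hθ hθ1 => ⟨fun δ hδ => ?_, fun ε hε hε1 => ?_⟩,
    fun κ hκ => Pool.Agent.Y854.GM.expLe_pow κ hκ, fun b hb => Pool.Agent.Y854.GM.expLe_geom b hb⟩
  · obtain ⟨E, h1, h2⟩ := core N hN χ f hf hv hτ hE hθ hθ1 hδ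
    have h1θ : 1 - θ ≠ 0 := by
      have : 0 < 1 - θ := by linarith
      exact this.ne'
    have h3 : 1 - (δ - τ) / (1 - θ) = (1 - θ - δ + τ) / (1 - θ) := by
      field_simp
      ring
    refine ⟨E, by rw [h3]; exact h1, fun α hα hαE s c => ?_⟩
    obtain ⟨k₀, hk₀⟩ := h2 α hα hαE s c 1 one_pos
    refine ⟨k₀, fun k hk W hW => ?_⟩
    have h4 := hk₀ k hk W hW
    rwa [one_mul] at h4
  · obtain ⟨E, h1, h2⟩ := core N hN χ f hf (δ := 2 * ε - θ) hv hτ hE hθ hθ1 (by linarith)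
    have h3 : (1 - θ - (2 * ε - θ) + τ) / (1 - θ) = (1 - 2 * ε + τ) / (1 - θ) := by
      congr 1
      ring
    rw [h3] at h1
    refine ⟨E, h1, fun α hα hαE s c => ?_⟩
    obtain ⟨k₀, hk₀⟩ := h2 α hα hαE s c ((2 / α) ^ (1 / 2 + 2 * ε)) (by positivity)
    have hvt : Tendsto v atTop atTop :=
      Pool.Agent.Y854.GM.tendsto_of_expLe (fun k => lt_of_lt_of_le one_pos (hv k)) hτ hE
    have hvt2 : Tendsto (fun k => (v k) ^ (1 - θ)) atTop atTop :=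
      (tendsto_rpow_atTop (by linarith)).comp hvt
    obtain ⟨k₁, hk₁⟩ := eventually_atTop.1 (hvt2.eventually_ge_atTop (2 / α))
    refine ⟨max k₀ k₁, fun k hk n hn => ?_⟩
    have hvk : 0 < v k := lt_of_lt_of_le one_pos (hv k)
    have h4 : 2 / α ≤ (v k) ^ (1 - θ) := hk₁ k ((le_max_right _ _).trans hk)
    have h5 : v k = (v k) ^ (1 - θ) * (v k) ^ θ := by
      rw [← Real.rpow_add hvk]
      rw [show 1 - θ + θ = 1 by ring, Real.rpow_one]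
    have h6 : 0 < (v k) ^ θ := by positivity
    have h7 : v k ≤ 2 / α * n := by
      have h8 : 2 / α * (v k) ^ θ ≤ v k := by
        calc 2 / α * (v k) ^ θ ≤ (v k) ^ (1 - θ) * (v k) ^ θ := mul_le_mul_of_nonneg_right h4 h6.le
          _ = v k := h5.symm
      have h9 : α * v k - (v k) ^ θ ≤ n := by linarith [(abs_le.1 hn).1]
      have h10 : 2 / α * (α * v k - (v k) ^ θ) ≤ 2 / α * n := mul_le_mul_of_nonneg_left h9 (by positivity)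
      have h11 : 2 / α * (α * v k - (v k) ^ θ) = 2 * v k - 2 / α * (v k) ^ θ := by
        field_simp
      linarith
    have h8 := hk₀ k ((le_max_left _ _).trans hk) {n} (by
      intro m hm
      rw [mem_singleton] at hm
      rw [hm]
      exact hn)
    rw [sum_singleton, show (1 : ℝ) / 2 + θ + (2 * ε - θ) = 1 / 2 + 2 * ε by ring] at h8
    have h9 : (v k) ^ (1 / 2 + 2 * ε) ≤ (2 / α) ^ (1 / 2 + 2 * ε) * (n : ℝ) ^ (1 / 2 + 2 * ε) := by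
      rw [← Real.mul_rpow (by positivity) (Nat.cast_nonneg n)]
      exact Real.rpow_le_rpow hvk.le h7 (by positivity)
    have h10 : ‖∑ i ∈ s, c i * coeff (f i) n‖ ^ 2 ≤ (n : ℝ) ^ (1 / 2 + 2 * ε) :=
      le_of_mul_le_mul_left (h8.trans h9) (by positivity)
    have h11 : (n : ℝ) ^ (1 / 2 + 2 * ε) = ((n : ℝ) ^ (1 / 4 + ε)) ^ 2 := by
      rw [← Real.rpow_natCast, ← Real.rpow_mul (Nat.cast_nonneg n)]
      congr 1
      push_cast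
      ring
    rw [h11] at h10
    exact (pow_le_pow_iff_left₀ (norm_nonneg _) (by positivity) two_ne_zero).1 h10

end Pool.Agent.Results.MP_af11aa_nt.NearMultiples
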