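import Pool.Agent.Q84.HW.Mean
import Pool.Agent.Q84.NX.Win
import Pool.Agent.Q84.NX.Str
import Pool.Agent.Q84.NX.Dy2

/-!
# The Ramanujan bound for coefficients of weight 3/2 near multiples of the primes of strings of consecutive primes

Let `f_1, …, f_K` be cusp forms of weight `3/2` on `Γ₀(N)`, `4 ∣ N`, with characters (in Shimura's normalisation; for
instance a basis of `S_{3/2}(24 p₀, χ)`), `a_i(n)` their coefficients, `0 < ε ≤ 1/4`. For all `κ > 0` and `m` there is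
`c' > 0` and for every `Z` a number `D` with the following property. For every large `X` there is a set `S` of at most
`(log X) ^ (49 / 50)` primes, all larger than `Z`, such that for EVERY function `g` with values `1` and `-1` on the primes
at least `X ^ (1 - κ)` integers `n`, `X < n ≤ 3X`, satisfy: the interval `[n, n + D]` contains at least `m` primes, and for
every prime `p` in it

* the Legendre symbol `(p / q)` is `g q` for all odd primes `q ≤ c' log X` outside `S`;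
* `|a_i(r)| ≤ r ^ (1/4 + ε)` for all `i` and ALL integers `r` with `|r - k p| ≤ p ^ (ε / 5)` for some integer `k`,
  `1 ≤ k ≤ p ^ (ε / 5)` (for instance `r = p`).

Method: `f ^ 4` is a cusp form of weight `6`, so `|f(z)| (Im z) ^ (3/4)` is bounded (Mathlib) and
`∑_{n ≤ X} |a(n)| ^ 2 ≤ C X ^ (3/2)` (`Q84/HW`); so the bound fails for few `n`; few primes have such an `n` near a small
multiple (`Q84/NX/Win`); the Maynard-Tao theorem relative to a modulus which is a small power of `X`, in the form that it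
avoids arbitrary exceptional sets of size `X ^ (1 - η)` (`Q84/MB/E1-E4`), gives the strings.
-/

set_option autoImplicit false

open scoped Classical MatrixGroups

namespace Pool.Agent.Results.MP_af11aa_nt.StringsOfPrimes

open Finset Filter UpperHalfPlane CongruenceSubgroup

/-- `ε_d` for odd `d`: `1` if `d ≡ 1 mod 4`, `i` if `d ≡ 3 mod 4` -/
noncomputable def eps (d : ℤ) : ℂ := if d % 4 = 1 then 1 else Complex.I

/-- Shimura's symbol `(c/d)`, `d` odd -/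
def sym (c d : ℤ) : ℤ := if c < 0 ∧ d < 0 then -jacobiSym c d.natAbs else jacobiSym c d.natAbs

/-- the theta multiplier `j(γ, z) = ε_d⁻¹ (c/d) (c z + d) ^ (1/2)` -/
noncomputable def j (γ : SL(2, ℤ)) (z : ℍ) : ℂ :=
  (eps (γ 1 1))⁻¹ * (sym (γ 1 0) (γ 1 1) : ℂ) * ((γ 1 0 : ℂ) * z + (γ 1 1 : ℂ)) ^ (1 / 2 : ℂ)

/-- `f` is a cusp form of weight `3/2` on `Γ₀(N)` with character `χ`: holomorphic,
`f(γ z) = χ(d) j(γ, z) ^ 3 f(z)` for `γ` in `Γ₀(N)`, and `f(σ z) (c z + d) ^ (-3/2)` tends to `0` for `Im z → ∞`, for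
every `σ` in `SL₂(ℤ)` -/
structure IsCuspForm (N : ℕ) (χ : DirichletCharacter ℂ N) (f : ℍ → ℂ) : Prop where
  holo : MDifferentiable (modelWithCornersSelf ℂ ℂ) (modelWithCornersSelf ℂ ℂ) f
  slash : ∀ γ ∈ Gamma0 N, ∀ z : ℍ, f (γ • z) = χ ((γ 1 1 : ℤ) : ZMod N) * j γ z ^ 3 * f z
  zero : ∀ σ : SL(2, ℤ), IsZeroAtImInfty fun z : ℍ => f (σ • z) * ((σ 1 0 : ℂ) * z + (σ 1 1 : ℂ)) ^ (-(3 / 2) : ℂ)

/-- the coefficient `a_f(n)` of `e^(2 π i n z)` -/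
noncomputable def coeff (f : ℍ → ℂ) (n : ℕ) : ℂ := (qExpansion 1 f).coeff n

/-- `|a_i(r)| ≤ r ^ (1/4 + ε)` for all `i` and all `r` within `p ^ (ε / 5)` of a multiple `k p`, `1 ≤ k ≤ p ^ (ε / 5)` -/
def Fine {ι : Type} (f : ι → ℍ → ℂ) (ε : ℝ) (p : ℕ) : Prop :=
  ∀ (i : ι) (k r : ℕ), 1 ≤ k → (k : ℝ) ≤ (p : ℝ) ^ (ε / 5) → |(r : ℝ) - k * p| ≤ (p : ℝ) ^ (ε / 5) →
    ‖coeff (f i) r‖ ≤ (r : ℝ) ^ (1 / 4 + ε)

theorem conv {N : ℕ} {χ : DirichletCharacter ℂ N} {f : ℍ → ℂ} (hf : IsCuspForm N χ f) :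
    Pool.Agent.Q84.HW.IsCuspForm N χ f := ⟨hf.holo, hf.slash, hf.zero⟩

/-- few coefficients are large -/
theorem few {N : ℕ} (hN : 0 < N) {χ : DirichletCharacter ℂ N} {f : ℍ → ℂ} (hf : IsCuspForm N χ f) (ε : ℝ) (hε : 0 < ε) :
    ∃ C : ℝ, 0 ≤ C ∧ ∀ K : ℕ, 1 ≤ K →
      (((Ioc K (2 * K)).filter fun n : ℕ => (n : ℝ) ^ (1 / 4 + ε) < ‖coeff f n‖).card : ℝ) ≤ C * (K : ℝ) ^ (1 - 2 * ε) := by
  have : NeZero N := ⟨hN.ne'⟩
  obtain ⟨C, hC0, hC⟩ := Pool.Agent.Q84.HW.mean_square (conv hf)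
  refine ⟨C * 2 ^ (3 / 2 : ℝ), by positivity, fun K hK => ?_⟩
  have hK0 : (0 : ℝ) < K := by exact_mod_cast hK
  obtain ⟨F, hF⟩ : ∃ F, F = (Ioc K (2 * K)).filter fun n : ℕ => (n : ℝ) ^ (1 / 4 + ε) < ‖coeff f n‖ := ⟨_, rfl⟩
  rw [← hF]
  have h1 : (F.card : ℝ) * (K : ℝ) ^ (1 / 2 + 2 * ε) ≤ C * ((2 * K : ℕ) : ℝ) ^ (3 / 2 : ℝ) := by
    calc (F.card : ℝ) * (K : ℝ) ^ (1 / 2 + 2 * ε) = ∑ _n ∈ F, (K : ℝ) ^ (1 / 2 + 2 * ε) := by
          rw [sum_const, nsmul_eq_mul]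
      _ ≤ ∑ n ∈ F, ‖coeff f n‖ ^ 2 := by
          apply sum_le_sum
          intro n hn
          rw [hF, mem_filter, mem_Ioc] at hn
          obtain ⟨⟨h1, _⟩, h2⟩ := hn
          have hnK : (K : ℝ) ≤ n := by exact_mod_cast h1.le
          calc (K : ℝ) ^ (1 / 2 + 2 * ε) ≤ (n : ℝ) ^ (1 / 2 + 2 * ε) :=
                Real.rpow_le_rpow hK0.le hnK (by positivity)
            _ = ((n : ℝ) ^ (1 / 4 + ε)) ^ 2 := by
                rw [← Real.rpow_natCast, ← Real.rpow_mul (Nat.cast_nonneg n)]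
                congr 1
                push_cast
                ring
            _ ≤ ‖coeff f n‖ ^ 2 := pow_le_pow_left₀ (by positivity) h2.le 2
      _ ≤ ∑ n ∈ range (2 * K + 1), ‖coeff f n‖ ^ 2 := by
          apply sum_le_sum_of_subset_of_nonneg
          · intro n hn
            rw [hF, mem_filter, mem_Ioc] at hn
            rw [mem_range]
            omega
          · intro n _ _
            positivity
      _ ≤ C * ((2 * K : ℕ) : ℝ) ^ (3 / 2 : ℝ) := hC (2 * K) (by omega)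
  have h2 : ((2 * K : ℕ) : ℝ) ^ (3 / 2 : ℝ) = 2 ^ (3 / 2 : ℝ) * (K : ℝ) ^ (3 / 2 : ℝ) := by
    push_cast
    exact Real.mul_rpow (by norm_num) hK0.le
  rw [h2, ← mul_assoc] at h1
  have h3 : (K : ℝ) ^ (3 / 2 : ℝ) = (K : ℝ) ^ (1 - 2 * ε) * (K : ℝ) ^ (1 / 2 + 2 * ε) := by
    rw [← Real.rpow_add hK0]
    congr 1
    ring
  rw [h3, ← mul_assoc] at h1
  exact le_of_mul_le_mul_right h1 (by positivity)

/-- **Theorem.** -/
theorem result {ι : Type} [Fintype ι] (N : ι → ℕ) (hN : ∀ i, 0 < N i ∧ 4 ∣ N i)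
    (χ : (i : ι) → DirichletCharacter ℂ (N i)) (f : ι → ℍ → ℂ) (hf : ∀ i, IsCuspForm (N i) (χ i) (f i)) (ε : ℝ)
    (hε : 0 < ε) (hε1 : ε ≤ 1 / 4) :
    (∀ (i : ι) (z : ℍ), HasSum (fun n : ℕ => coeff (f i) n * Complex.exp (2 * Real.pi * Complex.I * n * z)) (f i z)) ∧
    ∀ κ : ℝ, 0 < κ → ∀ m : ℕ, ∃ c' : ℝ, 0 < c' ∧
    ∀ Z : ℕ, ∃ D : ℕ, ∃ X₀ : ℝ, ∀ X : ℝ, X₀ ≤ X →
    ∃ S : Finset ℕ, (∀ q ∈ S, q.Prime ∧ Z < q) ∧ (S.card : ℝ) ≤ (Real.log X) ^ (49 / 50 : ℝ) ∧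
    ∀ g : ℕ → ℤ, (∀ q, g q = 1 ∨ g q = -1) →
      X ^ (1 - κ) ≤ (((Icc 1 ⌊3 * X⌋₊).filter fun n : ℕ => X < n ∧
        m ≤ ((Icc n (n + D)).filter Nat.Prime).card ∧
        ∀ p ∈ Icc n (n + D), p.Prime → Fine f ε p ∧
          ∀ q : ℕ, q.Prime → q ≠ 2 → (q : ℝ) ≤ c' * Real.log X → q ∉ S → jacobiSym p q = g q).card : ℝ) := by
  refine ⟨fun i z => Pool.Agent.Q84.HW.hasSum_coeff (conv (hf i)) z, ?_⟩
  have hfew := fun i => few (hN i).1 (hf i) ε hε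
  choose C hC0 hC using hfew
  obtain ⟨R, hR⟩ : ∃ R : ℕ → Prop, R = fun n : ℕ => ∃ i, (n : ℝ) ^ (1 / 4 + ε) < ‖coeff (f i) n‖ := ⟨_, rfl⟩
  obtain ⟨K₀, hK₀⟩ : ∃ K₀ : ℝ, ∀ K : ℕ, K₀ ≤ K → (((Ioc K (2 * K)).filter R).card : ℝ) ≤ (K : ℝ) ^ (1 - 8 * ε / 5) := by
    have h1 : ∀ᶠ K : ℝ in atTop, 1 ≤ K ∧ ∑ i, C i ≤ K ^ (2 * ε / 5) := by
      filter_upwards [eventually_ge_atTop (1 : ℝ),
        (tendsto_rpow_atTop (by positivity : (0 : ℝ) < 2 * ε / 5)).eventually_ge_atTop (∑ i, C i)] with K h1 h2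
      exact ⟨h1, h2⟩
    obtain ⟨K₀, h2⟩ := eventually_atTop.1 h1
    refine ⟨K₀, fun K hK => ?_⟩
    obtain ⟨hK1, hKC⟩ := h2 K hK
    have hK0 : (0 : ℝ) < K := by linarith
    have hKn : 1 ≤ K := by exact_mod_cast hK1
    have h3 : (Ioc K (2 * K)).filter R ⊆
        (univ : Finset ι).biUnion fun i => (Ioc K (2 * K)).filter fun n : ℕ => (n : ℝ) ^ (1 / 4 + ε) < ‖coeff (f i) n‖ := by
      intro n hn
      rw [mem_filter, hR] at hn
      obtain ⟨h4, i, h5⟩ := hn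
      rw [mem_biUnion]
      exact ⟨i, mem_univ i, mem_filter.2 ⟨h4, h5⟩⟩
    calc (((Ioc K (2 * K)).filter R).card : ℝ)
        ≤ ((∑ i, ((Ioc K (2 * K)).filter fun n : ℕ => (n : ℝ) ^ (1 / 4 + ε) < ‖coeff (f i) n‖).card : ℕ) : ℝ) := by
          exact_mod_cast (card_le_card h3).trans card_biUnion_le
      _ ≤ ∑ i, C i * (K : ℝ) ^ (1 - 2 * ε) := by
          rw [Nat.cast_sum]
          exact sum_le_sum fun i _ => hC i K hKn
      _ = (∑ i, C i) * (K : ℝ) ^ (1 - 2 * ε) := by rw [sum_mul]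
      _ ≤ (K : ℝ) ^ (2 * ε / 5) * (K : ℝ) ^ (1 - 2 * ε) := mul_le_mul_of_nonneg_right hKC (by positivity)
      _ = (K : ℝ) ^ (1 - 8 * ε / 5) := by
          rw [← Real.rpow_add hK0]
          congr 1
          ring
  obtain ⟨C', hC'⟩ := Pool.Agent.Q84.NX.dyadic' R (8 * ε / 5) (by linarith) K₀ hK₀
  have hbad := Pool.Agent.Q84.NX.win_bad R C' (8 * ε / 5) (by positivity) (by linarith) hC' (ε / 5) (by positivity)
    (by linarith)
  intro κ hκ m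
  obtain ⟨c', hc', h⟩ := Pool.Agent.Q84.NX.strings_of (Pool.Agent.Q84.NX.WinFine R (ε / 5)) (8 * ε / 5 / 2)
    (by positivity) hbad κ hκ m
  have hF : ∀ p : ℕ, Pool.Agent.Q84.NX.WinFine R (ε / 5) p ↔ Fine f ε p := by
    intro p
    unfold Pool.Agent.Q84.NX.WinFine Fine
    rw [hR]
    constructor
    · intro h i k r hk hkp hr
      by_contra hcon
      exact h k r hk hkp hr ⟨i, not_le.1 hcon⟩
    · rintro h k r hk hkp hr ⟨i, hi⟩
      exact absurd (h i k r hk hkp hr) (not_le.2 hi)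
  simp only [hF] at h
  exact ⟨c', hc', h⟩

end Pool.Agent.Results.MP_af11aa_nt.StringsOfPrimes
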